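import Pool.Agent.Work.MP_e0d07f_co.Main

namespace Pool.Agent.Work.MP_e0d07f_co.Old.Disproof

open Filter Topology Pool.Agent.Work.MP_e0d07f_co

/-- There is a finite connected graph `F` whose weak saturation limit
`lim wsat(n, F) / n` exists and is irrational. -/
theorem result : ∃ (k : ℕ) (F : SimpleGraph (Fin k)), F.Connected ∧
    ∃ w : ℝ, Irrational w ∧
      Tendsto (fun n : ℕ => (wsat F n : ℝ) / (n : ℝ)) atTop (nhds w) :=
  main

end Pool.Agent.Work.MP_e0d07f_co.Old.Disproof
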